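import Pool.Agent.H29.Space

set_option autoImplicit false

namespace Pool.Agent.Results.MP_ffb385_an.Spaceable

open Filter Topology Set BoundedContinuousFunction
open Pool.Agent.H29.Space

/-- `f` is infinitely differentiable on `[0,1]` (one-sided at the endpoints). -/
def Smooth {𝕜 : Type} [RCLike 𝕜] (f : Icc (0 : ℝ) 1 → 𝕜) : Prop :=
  ContDiffOn ℝ (⊤ : ℕ∞) (IccExtend zero_le_one f) (Icc 0 1)

/-- The `n`-th derivative of `f` within `[0,1]`. -/
noncomputable def D {𝕜 : Type} [RCLike 𝕜] (n : ℕ) (f : Icc (0 : ℝ) 1 → 𝕜) (x : ℝ) : 𝕜 :=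
  iteratedDerivWithin n (IccExtend zero_le_one f) (Icc 0 1) x

theorem result (𝕜 : Type) [RCLike 𝕜] :
    ∃ V : Submodule 𝕜 (Icc (0 : ℝ) 1 → 𝕜),
      (∀ f ∈ V, Smooth f) ∧ ¬ FiniteDimensional 𝕜 V ∧
      (∀ (u : ℕ → Icc (0 : ℝ) 1 → 𝕜) (f : Icc (0 : ℝ) 1 → 𝕜), (∀ i, u i ∈ V) → Smooth f →
        (∀ n, TendstoUniformlyOn (fun i => D n (u i)) (D n f) atTop (Icc 0 1)) → f ∈ V) ∧
      ∀ f ∈ V, f ≠ 0 → ∀ x ∈ Icc (0 : ℝ) 1,
        (FormalMultilinearSeries.ofScalars 𝕜 (fun n => D n f x / (n.factorial : 𝕜))).radius = 0 := by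
  have hU : UniqueDiffOn ℝ (Icc (0 : ℝ) 1) := uniqueDiffOn_Icc one_pos
  let V : Submodule 𝕜 (Icc (0 : ℝ) 1 → 𝕜) :=
    { carrier := {f | Smooth f ∧ (∃ c : ℕ →ᵇ ℝ, ∀ x, RCLike.re (f x) = Ph c x) ∧
        ∃ c : ℕ →ᵇ ℝ, ∀ x, RCLike.im (f x) = Ph c x}
      add_mem' := by
        rintro f g ⟨h1, ⟨c1, h2⟩, ⟨d1, h3⟩⟩ ⟨h4, ⟨c2, h5⟩, ⟨d2, h6⟩⟩
        refine ⟨ContDiffOn.add h1 h4, ⟨c1 + c2, fun x => ?_⟩, ⟨d1 + d2, fun x => ?_⟩⟩
        · simp [Ph_add, h2, h5]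
        · simp [Ph_add, h3, h6]
      zero_mem' := by
        have h0 : ∀ x, Ph 0 x = 0 := fun x => by simpa using Ph_smul 0 0 x
        exact ⟨contDiffOn_const (c := (0 : 𝕜)), ⟨0, by simp [h0]⟩, ⟨0, by simp [h0]⟩⟩
      smul_mem' := by
        rintro a f ⟨h1, ⟨c1, h2⟩, ⟨d1, h3⟩⟩
        refine ⟨ContDiffOn.mul (contDiffOn_const (c := a)) h1,
          ⟨RCLike.re a • c1 - RCLike.im a • d1, fun x => ?_⟩,
          ⟨RCLike.re a • d1 + RCLike.im a • c1, fun x => ?_⟩⟩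
        · simp [Ph_sub, Ph_smul, h2, h3]
        · simp [Ph_add, Ph_smul, h2, h3] }
  have h0 : ∀ x, Ph 0 x = 0 := fun x => by simpa using Ph_smul 0 0 x
  refine ⟨V, fun f hf => hf.1, ?_, ?_, ?_⟩
  · intro hfin
    have hv : ∀ j, (fun x : Icc (0 : ℝ) 1 => ((Ph (e j) x : ℝ) : 𝕜)) ∈ V := by
      intro j
      refine ⟨?_, ⟨e j, by simp⟩, ⟨0, by simp [h0]⟩⟩
      have h1 : ContDiff ℝ (⊤ : ℕ∞) fun x => (g j x + H (e j) x) • (1 : 𝕜) :=
        ((g_smooth j).add (H_smooth _)).smul contDiff_const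
      refine h1.contDiffOn.congr fun x hx => ?_
      rw [IccExtend_of_mem _ _ hx]
      rw [Ph_e, RCLike.real_smul_eq_coe_mul, mul_one]
    refine Module.Finite.not_linearIndependent_of_infinite (R := 𝕜)
      (fun j : ℕ => (⟨_, hv j⟩ : V)) ?_
    rw [linearIndependent_iff']
    intro s a hs i hi
    have hsum : ∀ (b : ℕ → ℝ) (t : Finset ℕ) (x : ℝ),
        Ph (∑ j ∈ t, b j • e j) x = ∑ j ∈ t, b j * Ph (e j) x := by
      intro b t x
      induction t using Finset.induction_on with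
      | empty => simp [h0]
      | insert k t hk ih => rw [Finset.sum_insert hk, Finset.sum_insert hk, Ph_add, Ph_smul, ih]
    have hz : ∀ b : ℕ → ℝ, (∀ x : Icc (0 : ℝ) 1, ∑ j ∈ s, b j * Ph (e j) x = 0) → b i = 0 := by
      intro b hb
      have h1 := norm_le_of (∑ j ∈ s, b j • e j) 0 fun x hx => by
        rw [hsum, hb ⟨x, hx⟩, abs_zero]
      have h2 : ∑ j ∈ s, b j • e j = 0 := norm_le_zero_iff.1 (by simpa using h1)
      have h3 := congrArg (fun c : ℕ →ᵇ ℝ => c i) h2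
      simpa [e_apply, hi] using h3
    have hx : ∀ x : Icc (0 : ℝ) 1, ∑ j ∈ s, a j * ((Ph (e j) x : ℝ) : 𝕜) = 0 := by
      intro x
      have := congrArg (fun v : V => (v : Icc (0 : ℝ) 1 → 𝕜) x) hs
      simpa using this
    apply RCLike.ext
    · rw [map_zero]
      refine hz (fun j => RCLike.re (a j)) fun x => ?_
      simpa using congrArg RCLike.re (hx x)
    · rw [map_zero]
      refine hz (fun j => RCLike.im (a j)) fun x => ?_
      simpa using congrArg RCLike.im (hx x)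
  · intro u f hu hf hlim
    have h1 := hlim 0
    have key : ∀ L : 𝕜 →L[ℝ] ℝ, (∀ i, ∃ c : ℕ →ᵇ ℝ, ∀ x, L (u i x) = Ph c x) →
        ∃ c : ℕ →ᵇ ℝ, ∀ x, L (f x) = Ph c x := by
      intro L hL
      choose c hc using hL
      have h2 := L.uniformContinuous.comp_tendstoUniformlyOn h1
      obtain ⟨d, hd⟩ := closed c _ (h2.congr (Eventually.of_forall fun i x hx => by
        simp only [D, iteratedDerivWithin_zero, Function.comp]
        rw [IccExtend_of_mem _ _ hx, hc]))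
      refine ⟨d, fun x => ?_⟩
      rw [← hd x x.2]
      simp [D]
    exact ⟨hf, key RCLike.reCLM fun i => (hu i).2.1, key RCLike.imCLM fun i => (hu i).2.2⟩
  · rintro f ⟨hf, ⟨c, hc⟩, ⟨d, hd⟩⟩ hne x hx
    have key : ∀ (L : 𝕜 →L[ℝ] ℝ) (c : ℕ →ᵇ ℝ), (∀ z, |L z| ≤ ‖z‖) → c ≠ 0 →
        (∀ x, L (f x) = Ph c x) →
        ∀ N : ℕ, ∃ n : ℕ, N ≤ n ∧ (n.factorial : ℝ) * (n : ℝ) ^ n ≤ ‖D n f x‖ := by
      intro L c hL hc0 hc N
      obtain ⟨n, hn, hb⟩ := big c hc0 (L ∘ IccExtend zero_le_one f)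
        (L.contDiff.comp_contDiffOn hf) (fun y hy => by
          rw [Function.comp, IccExtend_of_mem _ _ hy, hc]) x hx N
      refine ⟨n, hn, hb.trans ?_⟩
      rw [iteratedDerivWithin, L.iteratedFDerivWithin_comp_left (hf x hx) hU hx
        (by exact_mod_cast le_top)]
      exact hL _
    apply radius_zero
    by_cases hc0 : c = 0
    · refine key RCLike.imCLM d (fun z => RCLike.abs_im_le_norm z) ?_ hd
      rintro rfl
      apply hne
      ext y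
      apply RCLike.ext
      · simp [hc, hc0, h0]
      · simp [hd, h0]
    · exact key RCLike.reCLM c (fun z => RCLike.abs_re_le_norm z) hc0 hc

end Pool.Agent.Results.MP_ffb385_an.Spaceable
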